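import Pool.Agent.LE.StmtsQF

/-!
LQF row JAL: algebra of jets.
-/

set_option autoImplicit false

open MeasureTheory ProbabilityTheory Function Filter

open scoped ENNReal BigOperators Topology NNReal ComplexOrder Matrix

noncomputable section

namespace Pool.Agent.LE.QF.H77

open Pool.Agent.LE.QF

section gen

variable {ι : Type} [Fintype ι] [DecidableEq ι] {E : Type} [NormedAddCommGroup E]
  [NormedSpace ℝ E] {q : ℝ × (ι → ℝ)}

omit [Fintype ι] in
theorem dC_ev {F H : ℝ × (ι → ℝ) → E} (h : F =ᶠ[𝓝 q] H) (c : ι) : dC c F =ᶠ[𝓝 q] dC c H := by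
  have h1 := h.fderiv (𝕜 := ℝ)
  filter_upwards [h1] with r hr
  unfold dC
  rw [hr]

theorem LL_ev {F H : ℝ × (ι → ℝ) → E} (h : F =ᶠ[𝓝 q] H) : LL F q = LL H q := by
  unfold LL
  rw [h.fderiv_eq]
  have h1 : ∑ c, dC c (dC c F) q = ∑ c, dC c (dC c H) q := by
    apply Finset.sum_congr rfl
    intro c _
    exact (dC_ev (dC_ev h c) c).eq_of_nhds
  rw [h1]

theorem mk {F : ℝ × (ι → ℝ) → E} {v l : E} {g : ι → E} (D : ι → ℝ × (ι → ℝ) → E)
    (sm : ContDiffAt ℝ 2 F q) (vl : F q = v) (hD : ∀ c, dC c F =ᶠ[𝓝 q] D c)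
    (hg : ∀ c, D c q = g c)
    (hl : (1 / 2 : ℝ) • ∑ c, dC c (D c) q + fderiv ℝ F q (1, 0) = l) : HJ F q v g l := by
  refine ⟨sm, vl, fun c => ?_, ?_⟩
  · rw [(hD c).eq_of_nhds, hg]
  · rw [← hl]
    unfold LL
    have h1 : ∑ c, dC c (dC c F) q = ∑ c, dC c (D c) q := by
      apply Finset.sum_congr rfl
      intro c _
      exact (dC_ev (hD c) c).eq_of_nhds
    rw [h1]

omit [DecidableEq ι] in
theorem ev_diff {F : ℝ × (ι → ℝ) → E} (h : ContDiffAt ℝ 2 F q) :
    ∀ᶠ r in 𝓝 q, DifferentiableAt ℝ F r := by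
  filter_upwards [h.eventually (by decide)] with r hr
  exact hr.differentiableAt (by decide)

theorem dC_diff {F : ℝ × (ι → ℝ) → E} (h : ContDiffAt ℝ 2 F q) (c : ι) :
    DifferentiableAt ℝ (dC c F) q := by
  have h1 : ContDiffAt ℝ 1 (fderiv ℝ F) q := h.fderiv_right (by norm_num)
  have h2 : DifferentiableAt ℝ (fderiv ℝ F) q := h1.differentiableAt (by decide)
  exact h2.clm_apply (differentiableAt_const _)

theorem germ {F H : ℝ × (ι → ℝ) → E} {v v' l l' : E} {g g' : ι → E} (hF : HJ F q v g l)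
    (hH : HJ H q v' g' l') (h : F =ᶠ[𝓝 q] H) : v = v' ∧ g = g' ∧ l = l' := by
  refine ⟨?_, ?_, ?_⟩
  · rw [← hF.vl, ← hH.vl]
    exact h.eq_of_nhds
  · funext c
    rw [← hF.gr, ← hH.gr]
    exact (dC_ev h c).eq_of_nhds
  · rw [← hF.ge, ← hH.ge]
    exact LL_ev h

theorem jconst (v : E) : HJ (fun _ : ℝ × (ι → ℝ) => v) q v (fun _ => 0) 0 := by
  apply mk (fun _ _ => 0)
  · exact contDiffAt_const
  · rfl
  · intro c
    filter_upwards with r
    unfold dC
    simp
  · intro c
    rfl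
  · have h1 : ∀ c : ι, dC c (fun _ : ℝ × (ι → ℝ) => (0 : E)) q = 0 := by
      intro c
      unfold dC
      simp
    simp [h1]

theorem jadd {F H : ℝ × (ι → ℝ) → E} {v v' l l' : E} {g g' : ι → E} (hF : HJ F q v g l)
    (hH : HJ H q v' g' l') :
    HJ (fun r => F r + H r) q (v + v') (fun c => g c + g' c) (l + l') := by
  apply mk (fun c r => dC c F r + dC c H r)
  · exact hF.sm.add hH.sm
  · show F q + H q = v + v'
    rw [hF.vl, hH.vl]
  · intro c
    filter_upwards [ev_diff hF.sm, ev_diff hH.sm] with r h1 h2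
    unfold dC
    rw [fderiv_fun_add h1 h2]
    rfl
  · intro c
    show dC c F q + dC c H q = g c + g' c
    rw [hF.gr, hH.gr]
  · rw [fderiv_fun_add (ev_diff hF.sm).self_of_nhds (ev_diff hH.sm).self_of_nhds]
    have h1 : ∀ c, dC c (fun r => dC c F r + dC c H r) q = dC c (dC c F) q + dC c (dC c H) q := by
      intro c
      show fderiv ℝ (fun r => dC c F r + dC c H r) q _ = _
      rw [fderiv_fun_add (dC_diff hF.sm c) (dC_diff hH.sm c)]
      rfl
    simp only [h1, Finset.sum_add_distrib, smul_add]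
    rw [← hF.ge, ← hH.ge]
    unfold LL
    simp only [_root_.add_apply]
    abel

theorem jlin {E' : Type} [NormedAddCommGroup E'] [NormedSpace ℝ E'] (A : E →L[ℝ] E')
    {F : ℝ × (ι → ℝ) → E} {v l : E} {g : ι → E} (hF : HJ F q v g l) :
    HJ (fun r => A (F r)) q (A v) (fun c => A (g c)) (A l) := by
  have key : ∀ (F : ℝ × (ι → ℝ) → E) (r : ℝ × (ι → ℝ)), DifferentiableAt ℝ F r →
      ∀ w, fderiv ℝ (fun r => A (F r)) r w = A (fderiv ℝ F r w) := by
    intro F r h w
    have h1 : HasFDerivAt (fun r => A (F r)) (A.comp (fderiv ℝ F r)) r :=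
      A.hasFDerivAt.comp r h.hasFDerivAt
    rw [h1.fderiv]
    rfl
  apply mk (fun c r => A (dC c F r))
  · exact A.contDiff.contDiffAt.comp q hF.sm
  · show A (F q) = A v
    rw [hF.vl]
  · intro c
    filter_upwards [ev_diff hF.sm] with r h1
    exact key F r h1 _
  · intro c
    show A (dC c F q) = A (g c)
    rw [hF.gr]
  · have h1 : ∀ c, dC c (fun r => A (dC c F r)) q = A (dC c (dC c F) q) := by
      intro c
      exact key (dC c F) q (dC_diff hF.sm c) _
    simp only [h1]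
    rw [key F q (ev_diff hF.sm).self_of_nhds, ← map_sum, ← map_smul, ← map_add, ← hF.ge]
    rfl

theorem jsum {κ : Type} (s : Finset κ) (F : κ → ℝ × (ι → ℝ) → E) (v l : κ → E) (g : κ → ι → E)
    (h : ∀ k ∈ s, HJ (F k) q (v k) (g k) (l k)) :
    HJ (fun r => ∑ k ∈ s, F k r) q (∑ k ∈ s, v k) (fun c => ∑ k ∈ s, g k c)
      (∑ k ∈ s, l k) := by
  classical
  induction s using Finset.induction_on with
  | empty =>
    simp only [Finset.sum_empty]
    exact jconst 0
  | insert a s ha ih =>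
    have h1 := jadd (h a (Finset.mem_insert_self a s))
      (ih fun k hk => h k (Finset.mem_insert_of_mem hk))
    simp only [Finset.sum_insert ha]
    exact h1

theorem jtime (f : ℝ → E) (hf : ContDiffAt ℝ 2 f q.1) :
    HJ (fun r : ℝ × (ι → ℝ) => f r.1) q (f q.1) (fun _ => 0) (deriv f q.1) := by
  have hsm : ContDiffAt ℝ 2 (fun r : ℝ × (ι → ℝ) => f r.1) q :=
    ContDiffAt.comp q hf contDiffAt_fst
  have key : ∀ r : ℝ × (ι → ℝ), DifferentiableAt ℝ f r.1 →
      ∀ w, fderiv ℝ (fun r : ℝ × (ι → ℝ) => f r.1) r w = w.1 • deriv f r.1 := by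
    intro r h w
    have h1 : HasFDerivAt (fun r : ℝ × (ι → ℝ) => f r.1)
        ((fderiv ℝ f r.1).comp (ContinuousLinearMap.fst ℝ ℝ (ι → ℝ))) r :=
      h.hasFDerivAt.comp r hasFDerivAt_fst
    rw [h1.fderiv]
    show fderiv ℝ f r.1 w.1 = _
    have h2 : deriv f r.1 = fderiv ℝ f r.1 1 := rfl
    rw [h2, ← map_smul]
    simp
  have hev : ∀ᶠ r in 𝓝 q, DifferentiableAt ℝ f r.1 := by
    have h1 : ∀ᶠ t in 𝓝 q.1, DifferentiableAt ℝ f t := by
      filter_upwards [hf.eventually (by decide)] with r hr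
      exact hr.differentiableAt (by decide)
    exact continuousAt_fst.eventually h1
  apply mk (fun _ _ => 0)
  · exact hsm
  · rfl
  · intro c
    filter_upwards [hev] with r hr
    unfold dC
    rw [key r hr]
    simp
  · intro c
    rfl
  · rw [key q hev.self_of_nhds]
    have h1 : ∀ c : ι, dC c (fun _ : ℝ × (ι → ℝ) => (0 : E)) q = 0 := by
      intro c
      unfold dC
      simp
    simp [h1]

end gen

section field

variable {ι : Type} [Fintype ι] [DecidableEq ι] {𝕜 : Type} [RCLike 𝕜] {q : ℝ × (ι → ℝ)}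

theorem jmul {F H : ℝ × (ι → ℝ) → 𝕜} {v v' l l' : 𝕜} {g g' : ι → 𝕜} (hF : HJ F q v g l)
    (hH : HJ H q v' g' l') :
    HJ (fun r => F r * H r) q (v * v') (fun c => v * g' c + g c * v')
      (v * l' + l * v' + ∑ c, g c * g' c) := by
  have key : ∀ (F H : ℝ × (ι → ℝ) → 𝕜) (r : ℝ × (ι → ℝ)), DifferentiableAt ℝ F r →
      DifferentiableAt ℝ H r → ∀ w, fderiv ℝ (fun r => F r * H r) r w =
        F r * fderiv ℝ H r w + fderiv ℝ F r w * H r := by
    intro F H r h1 h2 w
    rw [fderiv_fun_mul h1 h2]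
    simp only [_root_.add_apply, _root_.smul_apply, smul_eq_mul]
    ring
  apply mk (fun c r => F r * dC c H r + dC c F r * H r)
  · exact hF.sm.mul hH.sm
  · show F q * H q = v * v'
    rw [hF.vl, hH.vl]
  · intro c
    filter_upwards [ev_diff hF.sm, ev_diff hH.sm] with r h1 h2
    exact key F H r h1 h2 _
  · intro c
    show F q * dC c H q + dC c F q * H q = _
    rw [hF.gr, hH.gr, hF.vl, hH.vl]
  · have dF := (ev_diff hF.sm).self_of_nhds
    have dH := (ev_diff hH.sm).self_of_nhds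
    have h1 : ∀ c, dC c (fun r => F r * dC c H r + dC c F r * H r) q =
        v * dC c (dC c H) q + dC c (dC c F) q * v' + 2 * (g c * g' c) := by
      intro c
      have d1 := dC_diff hF.sm c
      have d2 := dC_diff hH.sm c
      show fderiv ℝ (fun r => F r * dC c H r + dC c F r * H r) q _ = _
      rw [fderiv_fun_add (dF.fun_mul d2) (d1.fun_mul dH)]
      rw [_root_.add_apply, key F (dC c H) q dF d2, key (dC c F) H q d1 dH]
      have e1 : fderiv ℝ F q (0, Pi.single c 1) = g c := hF.gr c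
      have e2 : fderiv ℝ H q (0, Pi.single c 1) = g' c := hH.gr c
      rw [e1, e2, hF.vl, hH.vl, hF.gr, hH.gr]
      unfold dC
      ring
    simp only [h1]
    rw [key F H q dF dH, ← hF.ge, ← hH.ge, hF.vl, hH.vl]
    unfold LL
    rw [Finset.sum_add_distrib, Finset.sum_add_distrib, ← Finset.mul_sum, ← Finset.sum_mul,
      ← Finset.mul_sum]
    simp only [RCLike.real_smul_eq_coe_mul]
    push_cast
    ring

theorem jcoord (c : ι) : HJ (fun r : ℝ × (ι → ℝ) => ((r.2 c : ℝ) : 𝕜)) q ((q.2 c : ℝ) : 𝕜)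
    (fun c' => if c' = c then 1 else 0) 0 := by
  have h0 : HJ (fun r : ℝ × (ι → ℝ) => r.2 c) q (q.2 c)
      (fun c' => if c' = c then (1 : ℝ) else 0) 0 := by
    have key : ∀ (r w : ℝ × (ι → ℝ)), fderiv ℝ (fun r : ℝ × (ι → ℝ) => r.2 c) r w = w.2 c := by
      intro r w
      have h1 : HasFDerivAt (fun r : ℝ × (ι → ℝ) => r.2 c)
          ((ContinuousLinearMap.proj (R := ℝ) (φ := fun _ : ι => ℝ) c).comp
            (ContinuousLinearMap.snd ℝ ℝ (ι → ℝ))) r :=
        ((ContinuousLinearMap.proj (R := ℝ) (φ := fun _ : ι => ℝ) c).comp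
            (ContinuousLinearMap.snd ℝ ℝ (ι → ℝ))).hasFDerivAt
      rw [h1.fderiv]
      rfl
    apply mk (fun c' _ => if c' = c then (1 : ℝ) else 0)
    · exact ((ContinuousLinearMap.proj (R := ℝ) (φ := fun _ : ι => ℝ) c).comp
            (ContinuousLinearMap.snd ℝ ℝ (ι → ℝ))).contDiff.contDiffAt
    · rfl
    · intro c'
      filter_upwards with r
      unfold dC
      rw [key]
      by_cases h : c' = c
      · subst h
        simp
      · rw [if_neg h]
        simp [Pi.single_eq_of_ne (Ne.symm h)]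
    · intro c'
      rfl
    · have h1 : ∀ c' : ι, dC c' (fun _ : ℝ × (ι → ℝ) => if c' = c then (1 : ℝ) else 0) q = 0 := by
        intro c
        unfold dC
        simp
      rw [key]
      simp [h1]
  have h1 := jlin (RCLike.ofRealCLM (K := 𝕜)) h0
  have h2 : (fun c' => (RCLike.ofRealCLM (K := 𝕜)) (if c' = c then (1 : ℝ) else 0)) =
      (fun c' : ι => if c' = c then (1 : 𝕜) else 0) := by
    funext c'
    split_ifs <;> simp
  rw [h2, map_zero] at h1
  exact h1

theorem jcomp {F : ℝ × (ι → ℝ) → ℝ} {v l : ℝ} {g : ι → ℝ} (hF : HJ F q v g l) (f : ℝ → ℝ)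
    (hf : ContDiffAt ℝ 2 f v) :
    HJ (fun r => f (F r)) q (f v) (fun c => deriv f v * g c)
      (deriv f v * l + deriv (deriv f) v / 2 * ∑ c, g c ^ 2) := by
  have key : ∀ (f : ℝ → ℝ) (F : ℝ × (ι → ℝ) → ℝ) (r : ℝ × (ι → ℝ)), DifferentiableAt ℝ f (F r) →
      DifferentiableAt ℝ F r → ∀ w, fderiv ℝ (fun r => f (F r)) r w =
        deriv f (F r) * fderiv ℝ F r w := by
    intro f F r h1 h2 w
    have h3 : HasFDerivAt (fun r => f (F r)) ((fderiv ℝ f (F r)).comp (fderiv ℝ F r)) r :=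
      h1.hasFDerivAt.comp r h2.hasFDerivAt
    rw [h3.fderiv]
    show fderiv ℝ f (F r) (fderiv ℝ F r w) = _
    have h4 : deriv f (F r) = fderiv ℝ f (F r) 1 := rfl
    rw [h4, mul_comm, ← smul_eq_mul, ← map_smul]
    simp
  have hf' : ContDiffAt ℝ 2 f (F q) := by
    rw [hF.vl]
    exact hf
  have hdf : ∀ᶠ t in 𝓝 (F q), DifferentiableAt ℝ f t := by
    filter_upwards [hf'.eventually (by decide)] with r hr
    exact hr.differentiableAt (by decide)
  have hdf2 : DifferentiableAt ℝ (deriv f) (F q) := by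
    have h1 : ContDiffAt ℝ 1 (fderiv ℝ f) (F q) := hf'.fderiv_right (by norm_num)
    have h2 : DifferentiableAt ℝ (fderiv ℝ f) (F q) := h1.differentiableAt (by decide)
    have h3 : DifferentiableAt ℝ (fun t => fderiv ℝ f t 1) (F q) :=
      h2.clm_apply (differentiableAt_const _)
    have h4 : deriv f = fun t => fderiv ℝ f t 1 := rfl
    rw [h4]
    exact h3
  have hcF : ContinuousAt F q := hF.sm.continuousAt
  have hev : ∀ᶠ r in 𝓝 q, DifferentiableAt ℝ f (F r) := hcF.eventually hdf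
  apply mk (fun c r => deriv f (F r) * dC c F r)
  · exact ContDiffAt.comp q hf' hF.sm
  · show f (F q) = f v
    rw [hF.vl]
  · intro c
    filter_upwards [ev_diff hF.sm, hev] with r h1 h2
    exact key f F r h2 h1 _
  · intro c
    show deriv f (F q) * dC c F q = _
    rw [hF.gr, hF.vl]
  · have dF := (ev_diff hF.sm).self_of_nhds
    have h1 : ∀ c, dC c (fun r => deriv f (F r) * dC c F r) q =
        deriv f v * dC c (dC c F) q + deriv (deriv f) v * g c ^ 2 := by
      intro c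
      have d1 := dC_diff hF.sm c
      have d2 : DifferentiableAt ℝ (fun r => deriv f (F r)) q := hdf2.comp q dF
      show fderiv ℝ (fun r => deriv f (F r) * dC c F r) q _ = _
      rw [fderiv_fun_mul d2 d1]
      simp only [_root_.add_apply, _root_.smul_apply, smul_eq_mul]
      rw [key (deriv f) F q hdf2 dF]
      have e1 : fderiv ℝ F q (0, Pi.single c 1) = g c := hF.gr c
      rw [e1, hF.vl, hF.gr]
      unfold dC
      ring
    simp only [h1]
    rw [key f F q hdf.self_of_nhds dF, ← hF.ge, hF.vl]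
    unfold LL
    rw [Finset.sum_add_distrib, ← Finset.mul_sum, ← Finset.mul_sum]
    simp only [smul_eq_mul]
    ring

end field

theorem jal : JalStmt := by
  intro ι _ _ 𝕜 _ q
  refine ⟨fun v => jconst v, fun c => jcoord c, ?_, ?_, ?_, ?_, ?_, ?_⟩
  · intro F H v v' l l' g g' hF hH
    refine ⟨jadd hF hH, ?_, jmul hF hH⟩
    have h1 := jadd hF (jlin (-(ContinuousLinearMap.id ℝ 𝕜)) hH)
    have h2 : (fun r => F r + (-(ContinuousLinearMap.id ℝ 𝕜)) (H r)) = fun r => F r - H r := by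
      funext r
      show F r + -(H r) = F r - H r
      ring
    have h3 : v + (-(ContinuousLinearMap.id ℝ 𝕜)) v' = v - v' := by
      show v + -v' = v - v'
      ring
    have h4 : (fun c => g c + (-(ContinuousLinearMap.id ℝ 𝕜)) (g' c)) =
        fun c => g c - g' c := by
      funext c
      show g c + -(g' c) = g c - g' c
      ring
    have h5 : l + (-(ContinuousLinearMap.id ℝ 𝕜)) l' = l - l' := by
      show l + -l' = l - l'
      ring
    rw [h2, h3, h4, h5] at h1
    exact h1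
  · intro F v l g hF
    exact ⟨jlin ((RCLike.conjCLE (K := 𝕜)) : 𝕜 →L[ℝ] 𝕜) hF, jlin (RCLike.reCLM (K := 𝕜)) hF,
      jlin (-(ContinuousLinearMap.id ℝ 𝕜)) hF⟩
  · intro F v l g hF
    exact ⟨jlin (RCLike.ofRealCLM (K := 𝕜)) hF, fun f hf => jcomp hF f hf⟩
  · intro κ s F v l g h
    exact jsum s F v l g h
  · intro f hf
    exact jtime f hf
  · intro F H v v' l l' g g' hF hH h
    exact germ hF hH h

end Pool.Agent.LE.QF.H77
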